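import Pool.Agent.HL.P_NTC
import Pool.Agent.HL.P_NMU
import Pool.Agent.HL.P_NHO
import Pool.Agent.HL.QDefs
import Pool.Agent.MotE.GenBy

/-!
# From Chow motives to numerical motives (MP_6c4da4_ag, by helper7)

`bar M` is the numerical motive of the Chow motive `M`.
-/

set_option autoImplicit false

open CategoryTheory MonoidalCategory CartesianMonoidalCategory Limits

universe v u w x

namespace MotP.HL

open CHM

noncomputable section

set_option linter.unusedSectionVars false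

variable {V : Type u} [Category.{v} V] [CartesianMonoidalCategory V]

section

variable {T : CHM.ChowTheory.{v, u, w} V} (hG : S_NGR T) (hU : S_NUN T)

/-- the numerical motive of a Chow motive -/
def bar (M : CHM.Mot T) : CHM.Mot (numQ T hG hU) where
  X := M.X
  p := pr T _ M.p
  m := M.m
  deg := numQ_mem hG hU M.deg
  idem := by
    refine (numQ_cp hG hU M.p M.p).trans ?_
    rw [M.idem]

theorem bar_mem {M N : CHM.Mot T} {f : T.CH (M.X ⊗ N.X)} (hf : f ∈ CHM.Mot.hom M N) :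
    (show (numQ T hG hU).CH (M.X ⊗ N.X) from pr T _ f) ∈
      CHM.Mot.hom (bar hG hU M) (bar hG hU N) := by
  refine ⟨numQ_mem hG hU hf.1, ?_⟩
  have h1 : (numQ T hG hU).cp (X := M.X) (Y := M.X) (Z := N.X) (pr T _ M.p) (pr T _ f) =
      pr T _ (T.cp M.p f) := numQ_cp hG hU _ _
  have h2 : (numQ T hG hU).cp (X := M.X) (Y := N.X) (Z := N.X) (pr T _ (T.cp M.p f))
      (pr T _ N.p) = pr T _ (T.cp (T.cp M.p f) N.p) := numQ_cp hG hU _ _
  refine Eq.trans (congrArg (fun a => (numQ T hG hU).cp (X := M.X) (Y := N.X) (Z := N.X) a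
    (pr T _ N.p)) h1) ?_
  refine h2.trans ?_
  rw [hf.2]

/-- the numerical morphism of a morphism of Chow motives -/
def barL (M N : CHM.Mot T) : (M ⟶ N) →ₗ[ℚ] (bar hG hU M ⟶ bar hG hU N) where
  toFun f := ⟨pr T _ f.1, bar_mem hG hU f.2⟩
  map_add' f g := Subtype.ext (map_add (pr T _) f.1 g.1)
  map_smul' r f := Subtype.ext (map_smul (pr T _) r f.1)

theorem barL_val {M N : CHM.Mot T} (f : M ⟶ N) : (barL hG hU M N f).1 = pr T _ f.1 := rfl

theorem barL_id (M : CHM.Mot T) : barL hG hU M M (𝟙 M) = 𝟙 _ := Subtype.ext rfl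

theorem barL_comp {M N L : CHM.Mot T} (f : M ⟶ N) (g : N ⟶ L) :
    barL hG hU M L (f ≫ g) = barL hG hU M N f ≫ barL hG hU N L g :=
  Subtype.ext (numQ_cp hG hU f.1 g.1).symm

theorem cpp_mem {M N : CHM.Mot T} {c : T.CH (M.X ⊗ N.X)}
    (hc : c ∈ T.gr (M.X ⊗ N.X) (T.dim M.X + N.m - M.m)) :
    T.cp (T.cp M.p c) N.p ∈ CHM.Mot.hom M N := by
  refine ⟨?_, ?_⟩
  · refine T.gr_congr ?_ (T.cp_mem (T.cp_mem M.deg hc) N.deg)
    ring
  · rw [← T.cp_assoc M.p, ← T.cp_assoc M.p, M.idem, T.cp_assoc _ N.p N.p, N.idem]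

theorem barL_surj (M N : CHM.Mot T) : Function.Surjective (barL hG hU M N) := by
  intro g
  obtain ⟨c, hc, hcg⟩ : ∃ c : T.CH (M.X ⊗ N.X),
      c ∈ T.gr (M.X ⊗ N.X) (T.dim M.X + N.m - M.m) ∧ pr T _ c = g.1 := g.2.1
  refine ⟨⟨T.cp (T.cp M.p c) N.p, cpp_mem hc⟩, Subtype.ext ?_⟩
  change pr T _ (T.cp (T.cp M.p c) N.p) = g.1
  have h1 : (numQ T hG hU).cp (X := M.X) (Y := M.X) (Z := N.X) (pr T _ M.p) (pr T _ c) =
    pr T _ (T.cp M.p c) := numQ_cp hG hU _ _
  have h2 : (numQ T hG hU).cp (X := M.X) (Y := N.X) (Z := N.X) (pr T _ (T.cp M.p c))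
    (pr T _ N.p) = pr T _ (T.cp (T.cp M.p c) N.p) := numQ_cp hG hU _ _
  have h3 := g.2.2
  refine Eq.trans ?_ h3
  refine h2.symm.trans ?_
  refine congrArg (fun a => (numQ T hG hU).cp (X := M.X) (Y := N.X) (Z := N.X) a
    (pr T _ N.p)) ?_
  refine h1.symm.trans ?_
  exact congrArg (fun a => (numQ T hG hU).cp (X := M.X) (Y := M.X) (Z := N.X)
    (pr T _ M.p) a) hcg

theorem barL_eq_zero {M N : CHM.Mot T} (f : M ⟶ N) :
    barL hG hU M N f = 0 ↔ MotP.NumTrivial f := by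
  rw [CHM.Mot.numTrivial_iff]
  constructor
  · intro h b _
    have h1 : pr T _ f.1 = 0 := congrArg Subtype.val h
    exact (pr_eq_zero T).1 h1 b
  · intro h
    refine Subtype.ext ?_
    change pr T _ f.1 = 0
    rw [pr_eq_zero]
    exact nt_of_homog T f.2.1 h

theorem bar_tensor (M N : CHM.Mot T) : bar hG hU (M ⊗ N) = bar hG hU M ⊗ bar hG hU N := rfl

theorem bar_dual (M : CHM.Mot T) : bar hG hU Mᘁ = (bar hG hU M)ᘁ := rfl

theorem bar_h (X : V) (m : ℤ) :
    bar hG hU (CHM.Mot.h T X m) = CHM.Mot.h (numQ T hG hU) X m := by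
  have h := (numQ_diag hG hU X).symm
  change CHM.Mot.mk X (pr T _ (T.diag X)) m _ _ =
    CHM.Mot.mk X ((numQ T hG hU).diag X) m _ _
  congr 1

theorem bar_unit : bar hG hU (𝟙_ (CHM.Mot T)) = 𝟙_ (CHM.Mot (numQ T hG hU)) := bar_h hG hU _ 0

end

end

end MotP.HL
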