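import Pool.Agent.MotE.SubBy

/-!
# Indecomposable objects with a local endomorphism ring (MP_6c4da4_ag, by helper7)

The second alternative of the dichotomy, with one more property of the indecomposable objects:
every endomorphism is numerically trivial or an isomorphism.
-/

set_option autoImplicit false

open CategoryTheory MonoidalCategory BraidedCategory Limits Polynomial ObjectProperty ZeroObject

universe v u

namespace Mot

noncomputable section

set_option linter.unusedSectionVars false

variable {C : Type u} [Category.{v} C] [Abelian C] [Linear ℚ C] [MonoidalCategory C]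
  [SymmetricCategory C] [MonoidalPreadditive C] [MonoidalLinear ℚ C] [RightRigidCategory C]

namespace Frob

variable (W : Frob C)

include W in
/-- a nilpotent endomorphism of an indecomposable object is numerically trivial -/
theorem ind_num {M : C} (hM : Ind M) (f : End M) (hf : IsNilpotent f) :
    NumTriv (show M ⟶ M from f) := by
  intro g
  rcases W.ind_cases hM ((show M ⟶ M from f) ≫ g : M ⟶ M) with h | h
  · exact W.tr_of_nilpotent _ h
  · obtain ⟨k, hk⟩ := hf
    have h1 : ∀ j : ℕ, (f ^ j : End M) = 0 → (𝟙 M : M ⟶ M) = 0 := by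
      intro j
      induction j with
      | zero => intro hj; exact hj
      | succ j ih =>
        intro hj
        apply ih
        have h2 : (show M ⟶ M from (f ^ j : End M)) ≫ ((show M ⟶ M from f) ≫ g) = 0 := by
          rw [← Category.assoc]
          have h3 : (show M ⟶ M from (f ^ j : End M)) ≫ (show M ⟶ M from f) =
              (show M ⟶ M from (f ^ (j + 1) : End M)) := by
            rw [pow_succ']
            rfl
          rw [h3, hj]
          exact Limits.zero_comp
        have h4 : Mono ((show M ⟶ M from f) ≫ g) := inferInstance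
        rw [← cancel_mono ((show M ⟶ M from f) ≫ g), h2]
        exact Limits.zero_comp.symm
    have h2 := h1 k hk
    have h3 : (show M ⟶ M from f) ≫ g = 0 := by
      rw [← Category.comp_id ((show M ⟶ M from f) ≫ g), h2, Limits.comp_zero]
    rw [h3]
    exact tr_zero

include W in
theorem ind_local {M : C} (hM : Ind M) (f : M ⟶ M) : NumTriv f ∨ IsIso f := by
  rcases W.ind_cases hM f with h | h
  · exact Or.inl (W.ind_num hM f h)
  · exact Or.inr h

/-- as `big_summand`, with a nonzero section -/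
theorem big_sec {X Y : C} (f : X ⟶ Y) (hf : NumTriv f) (hf0 : f ≠ 0) (b : ℕ) :
    ∃ (M : C) (k : ℕ), Summ M (T (Y ⊗ Xᘁ) k) ∧ Ind M ∧ (∃ σ : 𝟙_ C ⟶ M, σ ≠ 0) ∧
      b < W.mult M ∧ (∀ z : ℂ, z ≠ 1 → W.ν M z = 0) ∧ ∀ N : Submodule ℚ (M ⟶ M),
        (∀ f : M ⟶ M, NumTriv f → f ∈ N) → Module.rank ℚ ((M ⟶ M) ⧸ N) ≤ W.mult M := by
  have h1 : ∀ g : Y ⊗ Xᘁ ⟶ 𝟙_ C, nm f ≫ g = 0 := by
    intro g
    obtain ⟨h, rfl⟩ := ev_surj g
    rw [nm_ev]
    exact hf h
  have h2 : nm f ≠ 0 := by
    intro h3
    apply hf0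
    apply nm_inj
    rw [h3]
    exact (map_zero (nmL X Y)).symm
  obtain ⟨M, k, hk, hs, hI, ⟨σ, hσ⟩, hb⟩ := W.local_dichotomy (nm f) h1 h2 b
  refine ⟨M, k, hs, hI, ⟨σ, hσ⟩, ?_, ?_, ?_⟩
  · rw [← W.loc_tv hI hσ]
    exact hb
  · intro z hz
    rw [W.loc_ν hI hσ, if_neg hz]
  · intro N hN
    exact W.loc_rank hI hσ N hN

end Frob

end

end Mot

namespace MotE

open Mot

noncomputable section

set_option linter.unusedSectionVars false

section

variable {C : Type u} [Category.{v} C] [Preadditive C] [Linear ℚ C] [MonoidalCategory C]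
  [SymmetricCategory C] [MonoidalPreadditive C] [MonoidalLinear ℚ C] [RightRigidCategory C]

/-- The second alternative, with the local endomorphism rings. -/
def BigL (W : MotP.Frobenius C) (S : C → Prop) : Prop :=
  (∃ X, S X ∧ ¬ Mot84.TateSquare W X) ∧ ∀ n : ℕ, ∃ M : C, GenBy S M ∧
    (∀ φ : M ⟶ M, MotP.NumTrivial φ ∨ IsIso φ) ∧ (∃ σ : 𝟙_ C ⟶ M, σ ≠ 0) ∧
    (∀ e : M ⟶ M, e ≫ e = e → e = 0 ∨ e = 𝟙 M) ∧ n ≤ (W.even M).count 1 ∧
    (∀ z : ℂ, z ≠ 1 → (W.even M).count z = (W.odd M).count z) ∧
    ∀ N : Submodule ℚ (M ⟶ M), (∀ f : M ⟶ M, MotP.NumTrivial f → f ∈ N) →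
      Module.rank ℚ ((M ⟶ M) ⧸ N) ≤ ((W.even M).count 1 : ℕ)

theorem BigL.big {W : MotP.Frobenius C} {S : C → Prop} (h : BigL W S) : Big W S := by
  refine ⟨h.1, fun n => ?_⟩
  obtain ⟨M, h1, -, -, h2, h3, h4, h5⟩ := h.2 n
  exact ⟨M, h1, h2, h3, h4, h5⟩

end

section abelian

variable {C : Type u} [Category.{v} C] [Abelian C] [Linear ℚ C] [MonoidalCategory C]
  [SymmetricCategory C] [MonoidalPreadditive C] [MonoidalLinear ℚ C] [RightRigidCategory C]

theorem abs_dichL (W : MotP.Frobenius C) (S : C → Prop) :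
    (∀ (X Y : C) (f : X ⟶ Y), GenBy S X → GenBy S Y → MotP.NumTrivial f → f = 0) ∨ BigL W S := by
  by_cases h : ∀ (X Y : C) (f : X ⟶ Y), GenBy S X → GenBy S Y → MotP.NumTrivial f → f = 0
  · exact Or.inl h
  · right
    push Not at h
    obtain ⟨X, Y, f, hX, hY, hf, hf0⟩ := h
    refine ⟨?_, ?_⟩
    · by_contra hc
      push Not at hc
      exact hf0 (Mot84.zero_of_abelian W (gen84 W hc hX) (gen84 W hc hY) f hf)
    · intro n
      obtain ⟨M, k, ⟨i, p, hip⟩, hI, hσ, hn, hz, hr⟩ := W.toMot.big_sec f hf hf0 n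
      refine ⟨M, GenBy.summand _ _ i p hip ((hY.tensor _ _ hX.dual).power k),
        fun φ => W.toMot.ind_local hI φ, hσ, hI, ?_, ?_, ?_⟩
      · exact hn.le
      · intro z hz1
        have h3 : ((W.even M).count z : ℤ) - (W.odd M).count z = 0 := hz z hz1
        omega
      · intro N hN
        exact hr N hN

end abelian

section

variable {C : Type u} [Category.{v} C] [Preadditive C] [Linear ℚ C] [MonoidalCategory C]
  [SymmetricCategory C] [MonoidalPreadditive C] [MonoidalLinear ℚ C] [RightRigidCategory C]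

/-- the second alternative in the subcategory gives the second alternative in the category -/
theorem bigL_sub (W : MotP.Frobenius C) (S : C → Prop)
    (h : BigL (sub W S) (fun Y : (PG S).FullSubcategory => S Y.obj)) : BigL W S := by
  obtain ⟨⟨X, hX, hT⟩, hb⟩ := h
  refine ⟨⟨X.obj, hX, fun h => hT ((tate_sub W S X).2 h)⟩, fun n => ?_⟩
  obtain ⟨M, -, hL, ⟨σ, hσ⟩, hI, hn, hz, hr⟩ := hb n
  refine ⟨M.obj, M.property, ?_, ⟨σ.hom, fun h => hσ ?_⟩, ?_, hn, hz, ?_⟩
  · intro φ
    rcases hL (homMk φ) with h1 | h1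
    · left
      exact (num_sub S _).1 h1
    · right
      obtain ⟨ψ, h2, h3⟩ := h1.out
      exact ⟨ψ.hom, congrArg InducedCategory.Hom.hom h2, congrArg InducedCategory.Hom.hom h3⟩
  · ext
    exact h
  · intro e he
    have h1 : (homMk e : M ⟶ M) ≫ homMk e = homMk e := by
      ext
      exact he
    rcases hI _ h1 with h2 | h2
    · left
      exact congrArg InducedCategory.Hom.hom h2
    · right
      exact congrArg InducedCategory.Hom.hom h2
  · intro N hN
    obtain ⟨N', hN'⟩ : ∃ N' : Submodule ℚ (M ⟶ M), N' = N.comap (homEq S M M).toLinearMap := ⟨_, rfl⟩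
    have h1 : Submodule.map (homEq S M M).toLinearMap N' = N := by
      rw [hN']
      exact Submodule.map_comap_eq_of_surjective (homEq S M M).surjective N
    have h2 := (Submodule.Quotient.equiv N' N (homEq S M M) h1).rank_eq
    rw [← h2]
    apply hr
    intro f hf
    rw [hN', Submodule.mem_comap]
    exact hN f.hom ((num_sub S f).1 hf)

/-- the main theorem, with local endomorphism rings -/
theorem mainL [HasFiniteBiproducts C] [IsIdempotentComplete C] (W : MotP.Frobenius C)
    (S : C → Prop) (hA : MotP.IsAbelian C ∨ MotP.IsAbelian (PG S).FullSubcategory) :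
    (∀ (X Y : C) (f : X ⟶ Y), GenBy S X → GenBy S Y → MotP.NumTrivial f → f = 0) ∨ BigL W S := by
  rcases hA with ⟨hK, hCK, hcomp⟩ | ⟨hK, hCK, hcomp⟩
  · have hc : ∀ {X Y : C} (f : X ⟶ Y), IsIso (Abelian.coimageImageComparison f) :=
      fun f => hcomp _ _ f
    let _ : Abelian C := Abelian.ofCoimageImageComparisonIsIso
    exact abs_dichL W S
  · have hc : ∀ {X Y : (PG S).FullSubcategory} (f : X ⟶ Y),
        IsIso (Abelian.coimageImageComparison f) := fun f => hcomp _ _ f
    let _ : Abelian (PG S).FullSubcategory := Abelian.ofCoimageImageComparisonIsIso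
    rcases abs_dichL (sub W S) (fun Y : (PG S).FullSubcategory => S Y.obj) with h | h
    · left
      intro X Y f hX hY hf
      have h1 := h ⟨X, hX⟩ ⟨Y, hY⟩ (homMk f) (gen_sub S hX) (gen_sub S hY)
        ((num_sub S _).2 hf)
      exact congrArg InducedCategory.Hom.hom h1
    · right
      exact bigL_sub W S h

end

end

end MotE
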