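import Pool.Agent.DD.Fin

/-!
# Consequences of the density dichotomy (MP_6c4da4_ag, by helper7)
-/

set_option autoImplicit false

open CategoryTheory MonoidalCategory CartesianMonoidalCategory Limits Filter

universe v u w x

namespace CHS

variable {V : Type u} [Category.{v} V] [CartesianMonoidalCategory V]

namespace Cohomology

variable {T : ChowTheory.{v, u, w} V} (K : Cohomology.{v, u, w, x} T)

/-- `N_r / M_r` tends to `0` -/
theorem tendsto_of_thin {X : V} (h : ∀ n : ℕ, K.Thin n X) :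
    Tendsto (fun r => (T.NN X r : ℝ) / K.MM X r) atTop (nhds 0) := by
  rw [Metric.tendsto_atTop]
  intro ε hε
  obtain ⟨n, hn⟩ := exists_nat_gt ε⁻¹
  obtain ⟨r₀, hr₀⟩ := h n
  refine ⟨r₀, fun r hr => ?_⟩
  obtain ⟨h1, h2, -⟩ := hr₀ r hr
  have hn0 : (0 : ℝ) < n := lt_trans (inv_pos.2 hε) hn
  have h3 : (0 : ℝ) < T.NN X r := by exact_mod_cast h1
  have h4 : (n : ℝ) * T.NN X r ≤ K.MM X r := by exact_mod_cast h2
  have h5 : (0 : ℝ) < K.MM X r := lt_of_lt_of_le (mul_pos hn0 h3) h4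
  rw [Real.dist_eq, sub_zero, abs_of_nonneg (by positivity), div_lt_iff₀ h5]
  have h6 : 1 < ε * n := by
    rw [inv_lt_iff_one_lt_mul₀ hε, mul_comm] at hn
    exact hn
  calc (T.NN X r : ℝ) = 1 * T.NN X r := (one_mul _).symm
    _ < (ε * n) * T.NN X r := mul_lt_mul_of_pos_right h6 h3
    _ = ε * (n * T.NN X r) := by ring
    _ ≤ ε * K.MM X r := mul_le_mul_of_nonneg_left h4 hε.le

/-- One variety: if `N_r ≥ c M_r` or `N_r ≥ c R_r` for one `c > 0` and infinitely many `r`, then the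
first alternative holds. -/
theorem one_variety (X : V) (hX : T.N X 1 ≠ 0) (c : ℝ) (hc : 0 < c)
    (h : ∀ k : ℕ, ∃ r, k ≤ r ∧ (c * K.MM X r ≤ T.NN X r ∨
      ∃ R : ℕ, T.RR X r = R ∧ c * R ≤ T.NN X r)) :
    (IsAbelian (Mot T) → IsAbelian (CatBy fun M : Mot T => M = Mot.h T X)) ∧
      (IsAbelian (CatBy fun M : Mot T => M = Mot.h T X) ↔
        ∀ (M N : Mot T) (f : M ⟶ N), ByVar X M → ByVar X N →
        T.NumTrivial (Mot.Hom.val f) → f = 0) ∧
      (IsAbelian (CatBy fun M : Mot T => M = Mot.h T X) →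
        ∀ Y : V, ByVar X (Mot.h T Y) → ∀ a : T.CH Y, T.NumTrivial a → a = 0) := by
  rcases K.density (fun M : Mot T => M = Mot.h T X) with h1 | ⟨-, -, h1⟩
  · exact h1
  · exfalso
    obtain ⟨n, hn⟩ := exists_nat_gt c⁻¹
    obtain ⟨r₀, hr₀⟩ := h1 X hX (fun M hM => GenBy.of M hM) n
    obtain ⟨r, hr, h2⟩ := h r₀
    obtain ⟨h3, h4, h5⟩ := hr₀ r hr
    have h6 : 1 < c * n := by
      rw [inv_lt_iff_one_lt_mul₀ hc, mul_comm] at hn
      exact hn
    have h7 : (0 : ℝ) < T.NN X r := by exact_mod_cast h3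
    have key : ∀ m : ℕ, n * T.NN X r ≤ m → ¬ c * m ≤ T.NN X r := by
      intro m hm hm2
      have h8 : (n : ℝ) * T.NN X r ≤ m := by exact_mod_cast hm
      have h9 : (T.NN X r : ℝ) < T.NN X r := by
        calc (T.NN X r : ℝ) = 1 * T.NN X r := (one_mul _).symm
          _ < (c * n) * T.NN X r := mul_lt_mul_of_pos_right h6 h7
          _ = c * (n * T.NN X r) := by ring
          _ ≤ c * m := mul_le_mul_of_nonneg_left h8 hc.le
          _ ≤ T.NN X r := hm2
      exact lt_irrefl _ h9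
    rcases h2 with h2 | ⟨R, hR, h2⟩
    · exact key _ h4 h2
    · refine key R ?_ h2
      rw [hR] at h5
      exact_mod_cast h5

end Cohomology

end CHS
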