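import Pool.Agent.MotE.Defs
import Pool.Agent.HL.ChsDefs

/-!
# Thin varieties: definitions (MP_6c4da4_ag, by helper7)
-/

set_option autoImplicit false

open CategoryTheory MonoidalCategory CartesianMonoidalCategory Limits

universe v u w x

namespace CHS

variable {V : Type u} [Category.{v} V] [CartesianMonoidalCategory V]

/-- `RR X r = R_r` is the dimension of `CH^(r d)(X^r × X^r)` (rational equivalence), `d = dim X`. -/
noncomputable def ChowTheory.RR (T : ChowTheory.{v, u, w} V) (X : V) (r : ℕ) : Cardinal.{w} :=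
  T.rank (T.cyc (pow X r ⊗ pow X r) (T.dim (pow X r)))

/-- The Chow motives generated by `h(X)` and the Tate motives. -/
abbrev ByVar {T : ChowTheory.{v, u, w} V} (X : V) : Mot T → Prop :=
  GenBy fun M : Mot T => M = Mot.h T X

namespace Cohomology

variable {T : ChowTheory.{v, u, w} V} (K : Cohomology.{v, u, w, x} T)

/-- `0 < N_r`, `n * N_r ≤ M_r` and `n * N_r ≤ R_r` for all large `r`: `N_r` and `R_r` are the
dimensions of `CH^(r d)(X^r × X^r)` modulo numerical and modulo rational equivalence, `M_r` is the
multiplicity of the corresponding eigenvalue of Frobenius on the cohomology of `X^r × X^r`. -/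
def Thin (n : ℕ) (X : V) : Prop :=
  ∃ r₀ : ℕ, ∀ r, r₀ ≤ r → 0 < T.NN X r ∧ n * T.NN X r ≤ K.MM X r ∧
    ((n * T.NN X r : ℕ) : Cardinal.{w}) ≤ T.RR X r

end Cohomology

end CHS
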