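import Pool.Agent.DD.Tw
import Pool.Agent.HL.P_RTO
import Pool.Agent.HL.P_ASY
import Pool.Agent.HL.P_PRT
import Pool.Agent.HL.P_ISO
import Pool.Agent.HL.P_LOW

/-!
# Density (MP_6c4da4_ag, by helper7)

If the motives generated by `X` contain objects with local endomorphism rings on which Frobenius has
the only eigenvalue `1`, with unbounded multiplicities `μ`, but endomorphism rings of dimension at
most `μ` modulo numerical equivalence, then `N_r / M_r` tends to `0`.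
-/

set_option autoImplicit false

open CategoryTheory MonoidalCategory CartesianMonoidalCategory Limits Filter

universe v u w x

namespace MotP.HL

open CHM

noncomputable section

set_option linter.unusedSectionVars false

namespace DD

section

variable (C : Type u) [Category.{v} C] [Preadditive C] [Linear ℚ C] [MonoidalCategory C]
  [SymmetricCategory C] [MonoidalPreadditive C] [MonoidalLinear ℚ C] [RightRigidCategory C]

theorem a_RTO : S_RTO C := t_RTO C (t_ADJ C) (a_BFA C) (a_NRM C) (t_GRO C) (a_LCV C)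

theorem a_GGX : S_GGX C := t_GGX C (t_ADJ C) (a_BFA C)

theorem a_ASY : S_ASY C :=
  t_ASY C (t_ADD C) (t_ADJ C) (a_BFA C) (a_NRM C) (a_RTO C) (a_GGX C)

theorem a_ONE : S_ONE C :=
  t_ONE C (t_ADD C) (t_ADJ C) (t_SPL C) (t_TEN C) (a_PAR C) (a_BFA C)

theorem a_PRT : S_PRT C := t_PRT C (t_ADD C) (t_SPL C) (t_TEN C) (a_BFA C) (a_ONE C)

theorem a_SIM : S_SIM C := t_SIM C (t_ADD C)

theorem a_ISO : S_ISO C := t_ISO C (t_ADD C) (a_BFA C) (a_SIM C)

theorem a_LOW : S_LOW C :=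
  t_LOW C (t_ADJ C) (a_BFA C) (a_RTO C) (a_GGX C) (a_ASY C) (a_ONE C) (a_PRT C) (a_SIM C)
    (a_ISO C)

end

/-- one simple object -/
theorem one_simple {C : Type u} [Category.{v} C] [Preadditive C] [Linear ℚ C]
    [MonoidalCategory C] [SymmetricCategory C] [MonoidalPreadditive C] [MonoidalLinear ℚ C]
    [RightRigidCategory C] [HasFiniteBiproducts C] [IsIdempotentComplete C] (W : Frob C) (X : C)
    (hX : 𝟙 X ≠ 0) (S : C) (hS : Smp S) (h1 : One W S) (k : ℕ) (hk : Smd S (GG X k))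
    (hh : h S S ≤ m W S) : ∃ N₀ : ℕ, ∀ r, N₀ ≤ r → (m W S : ℝ) - 1 ≤ mm W X r / nn X r := by
  have hF : Fam W X (fun _ : Fin 1 => S) := by
    refine ⟨fun _ => ⟨hS, h1, k, hk⟩, fun i j hij => ?_⟩
    exact absurd (Subsingleton.elim i j) hij
  obtain ⟨N₀, hN₀⟩ := (a_LOW C W X hX 1 (fun _ => S) hF).1 1 one_pos
  refine ⟨N₀, fun r hr => le_trans ?_ (hN₀ r hr)⟩
  have h2 : wt W (fun _ : Fin 1 => S) = (b W S : ℝ) ^ 2 / h S S := by
    unfold wt
    rw [Fin.sum_univ_one]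
  have h3 : b W S = m W S := ((a_ONE C W).2.2.2.1 S h1).1
  have h4 : 0 < h S S := CSI.h_pos_of_ne W (𝟙 S) hS.1
  have h5 : (0 : ℝ) < h S S := by exact_mod_cast h4
  have h6 : ((h S S : ℕ) : ℝ) ≤ m W S := by exact_mod_cast hh
  rw [h2, h3]
  have h7 : (m W S : ℝ) ≤ (m W S : ℝ) ^ 2 / h S S := by
    rw [le_div_iff₀ h5, sq]
    exact mul_le_mul_of_nonneg_left h6 (by positivity)
  linarith

variable {V : Type u} [Category.{v} V] [CartesianMonoidalCategory V]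

/-- An object `M` with a local endomorphism ring and a nonzero section: every object `Y` has at least
as many sections as there are morphisms `M ⟶ Y` modulo numerical equivalence. -/
theorem sec_le {T : CHM.ChowTheory.{v, u, w} V} (hG : S_NGR T) (hU : S_NUN T) (hN : S_NND T)
    (R : CHM.FrobeniusMaps T) (K : CHM.Cohomology.{v, u, w, x} T R) (hE : S_NEV.{v, u, w, x} T)
    (M Y : CHM.Mot T) (hL : ∀ φ : M ⟶ M, MotP.NumTrivial φ ∨ IsIso φ)
    (σ : 𝟙_ (CHM.Mot T) ⟶ M) (hσ : σ ≠ 0) :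
    ((h (bar hG hU M) (bar hG hU Y) : ℕ) : Cardinal.{w}) ≤
      Module.rank ℚ (𝟙_ (CHM.Mot T) ⟶ Y) := by
  have hfin := (frobQ hG hU hN R K hE).finite_hom (bar hG hU M) (bar hG hU Y)
  obtain ⟨g, hg⟩ := (barL hG hU M Y).exists_rightInverse_of_surjective
    (LinearMap.range_eq_top.2 (barL_surj hG hU M Y))
  obtain ⟨φ, hφ⟩ : ∃ φ : (bar hG hU M ⟶ bar hG hU Y) →ₗ[ℚ] (𝟙_ (CHM.Mot T) ⟶ Y),
      ∀ f, φ f = σ ≫ g f := ⟨(Linear.leftComp ℚ Y σ) ∘ₗ g, fun f => rfl⟩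
  have hinj : Function.Injective φ := by
    rw [injective_iff_map_eq_zero]
    intro f hf
    rw [hφ] at hf
    have h1 : barL hG hU M Y (g f) = f := LinearMap.congr_fun hg f
    by_contra hf0
    have h2 : ¬ MotP.NumTrivial (g f) := by
      intro h3
      apply hf0
      rw [← h1]
      exact (barL_eq_zero hG hU (g f)).2 h3
    unfold MotP.NumTrivial at h2
    push Not at h2
    obtain ⟨k, hk⟩ := h2
    rcases hL (g f ≫ k) with h3 | h3
    · apply hk
      have h4 := h3 (𝟙 M)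
      rwa [Category.comp_id] at h4
    · apply hσ
      rw [← cancel_mono (g f ≫ k), Limits.zero_comp, ← Category.assoc, hf, Limits.zero_comp]
  have h1 := LinearMap.rank_le_of_injective φ hinj
  have h2 : ((h (bar hG hU M) (bar hG hU Y) : ℕ) : Cardinal.{w}) =
      Module.rank ℚ (bar hG hU M ⟶ bar hG hU Y) := Module.finrank_eq_rank ℚ _
  rw [h2]
  exact h1

/-- the objects `GG` -/
theorem bar_gg {T : CHM.ChowTheory.{v, u, w} V} (hG : S_NGR T) (hU : S_NUN T) (X : V) (r : ℕ) :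
    GG (CHM.Mot.h (numQ T hG hU) X 0) r =
      bar hG hU (CHM.Mot.h T (CHM.pow X r ⊗ CHM.pow X r) (r * T.dim X)) := by
  unfold GG
  rw [CHM.Mot.T_h, NPW_ten, NPW_dim, bar_h]
  rfl

/-- MAIN THEOREM (density), one object: if `P` is generated by `X`, has a local endomorphism ring
and a nonzero section, `1` is the only eigenvalue of Frobenius on `P`, with multiplicity `μ > n`, and
the endomorphism ring has dimension at most `μ` modulo numerical equivalence, then for large `r`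
`n * N_r ≤ M_r` and `n * N_r` is at most the dimension of the space of cycles. -/
theorem density (T : CHM.ChowTheory.{v, u, w} V) (R : CHM.FrobeniusMaps T)
    (K : CHM.Cohomology.{v, u, w, x} T R) (X : V) (S : CHM.Mot T → Prop)
    (hS : ∀ M, S M → M = CHM.Mot.h T X 0 ∨ ∃ m : ℤ, M = CHM.Mot.h T (𝟙_ V) m)
    (hX : ∃ a ∈ T.gr X 1, ∃ b ∈ T.gr X (T.dim X - 1), T.deg (a * b) ≠ 0)
    (n : ℕ) (P : CHM.Mot T) (hP : MotE.GenBy S P)
    (hloc : ∀ φ : P ⟶ P, MotP.NumTrivial φ ∨ IsIso φ)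
    (hσ : ∃ σ : 𝟙_ (CHM.Mot T) ⟶ P, σ ≠ 0) (hn : n < (K.frobenius.even P).count 1)
    (hz : ∀ z : ℂ, z ≠ 1 → (K.frobenius.even P).count z = (K.frobenius.odd P).count z)
    (hr : ∀ N : Submodule ℚ (P ⟶ P), (∀ f : P ⟶ P, MotP.NumTrivial f → f ∈ N) →
        Module.rank ℚ ((P ⟶ P) ⧸ N) ≤ ((K.frobenius.even P).count 1 : ℕ))
    (N M : ℕ → ℕ)
    (hNr : ∀ r, N r = Cardinal.toNat (Module.rank ℚ
      (T.gr (CHM.pow X r ⊗ CHM.pow X r) (r * T.dim X) ⧸
        T.num (CHM.pow X r ⊗ CHM.pow X r) (r * T.dim X))))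
    (hMr : ∀ r, M r = K.mult (CHM.pow X r ⊗ CHM.pow X r) (r * T.dim X)) :
    (∀ r, 0 < N r) ∧ ∃ r₀ : ℕ, ∀ r, r₀ ≤ r → n * N r ≤ M r ∧
      ((n * N r : ℕ) : Cardinal.{w}) ≤
        Module.rank ℚ (T.gr (CHM.pow X r ⊗ CHM.pow X r) (r * T.dim X)) := by
  have hG := t_NGR T
  have hU := t_NUN T
  have hN := t_NND T
  have hE : S_NEV.{v, u, w, x} T := a_NEV T
  obtain ⟨W, hW⟩ : ∃ W, W = frobQ hG hU hN R K hE := ⟨_, rfl⟩
  obtain ⟨a, ha, b, hb', hab⟩ := hX
  have hR : Ret (𝟙_ (CHM.Mot (numQ T hG hU))) (CHM.Mot.h (numQ T hG hU) X 0) ∧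
      Ret (CHM.Mot.h (numQ T hG hU) (𝟙_ V) (-1)) (CHM.Mot.h (numQ T hG hU) X 0) := by
    refine ret_of_div (numQ T hG hU) (pr T X a) (numQ_mem hG hU ha) (pr T X b)
      (numQ_mem hG hU hb') ?_
    have h1 : (numQ T hG hU).deg (X := X) (pr T X a * pr T X b) = T.deg (a * b) := by
      refine Eq.trans ?_ (numQ_deg hG hU (a * b))
      exact congrArg ((numQ T hG hU).deg (X := X)) (map_mul (pr T X) a b).symm
    intro h2
    exact hab (h1.symm.trans h2)
  obtain ⟨h1, hL⟩ := hR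
  have hX0 : 𝟙 (CHM.Mot.h (numQ T hG hU) X 0) ≠ 0 := by
    intro h0
    obtain ⟨i, p, hip⟩ := h1
    apply W.ne
    rw [← hip, ← Category.comp_id i, h0, Limits.comp_zero, Limits.zero_comp]
  have hnn : ∀ r, nn (CHM.Mot.h (numQ T hG hU) X 0) r = N r := fun r =>
    ((a_NPW T hG hU hN R K hE X r).1).trans (hNr r).symm
  have hmm : ∀ r, mm W (CHM.Mot.h (numQ T hG hU) X 0) r = M r := by
    intro r
    rw [hW]
    exact ((a_NPW T hG hU hN R K hE X r).2.1).trans (hMr r).symm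
  have hpos : ∀ r, 0 < N r := by
    intro r
    rw [← hnn]
    exact (a_RTO (CHM.Mot (numQ T hG hU)) W _ hX0).2.1 r
  refine ⟨hpos, ?_⟩
  have e1 : m W (bar hG hU P) = (K.frobenius.even P).count 1 := by
    rw [hW]
    exact bar_m hG hU hN R K hE P
  have e2 : 𝟙 (bar hG hU P) ≠ 0 := bar_ne hG hU hN R K hE P (by omega)
  have e3 : Smp (bar hG hU P) := bar_smp hG hU P hloc e2
  have e4 : One W (bar hG hU P) := by
    rw [hW]
    exact bar_one hG hU hN R K hE P hz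
  obtain ⟨Z, hZ, hZ2⟩ := gen_bar hG hU X S hS P hP
  obtain ⟨k, hk⟩ := simple_gg (numQ T hG hU) h1 hL W hZ e3 hZ2
  have e5 : h (bar hG hU P) (bar hG hU P) ≤ m W (bar hG hU P) := by
    rw [e1]
    exact bar_h_le hG hU P _ hr
  obtain ⟨N₀, hN₀⟩ := one_simple W _ hX0 _ e3 e4 k hk e5
  -- the number of morphisms to `GG X r`
  have e10 := a_ASY (CHM.Mot (numQ T hG hU)) W _ hX0 k (bar hG hU P)ᘁ
    ((a_GGX (CHM.Mot (numQ T hG hU)) W _).2.2.2.1 _ _ hk)
  have e11 : MotP.HL.b W (bar hG hU P)ᘁ = (K.frobenius.even P).count 1 := by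
    rw [(a_BFA (CHM.Mot (numQ T hG hU)) W).2.2.1, ← e1]
    exact ((a_ONE (CHM.Mot (numQ T hG hU)) W).2.2.2.1 _ e4).1
  have e12 : ∀ r, h (bar hG hU P) (GG (CHM.Mot.h (numQ T hG hU) X 0) r) =
      MotP.HL.n ((bar hG hU P)ᘁ ⊗ GG (CHM.Mot.h (numQ T hG hU) X 0) r) := by
    intro r
    obtain ⟨a1, -, a3, -⟩ := t_ADJ (CHM.Mot (numQ T hG hU)) W
    rw [a1]
    exact (a3 _ _ (β_ (GG (CHM.Mot.h (numQ T hG hU) X 0) r) (bar hG hU P)ᘁ)).2.1 (𝟙_ _)
  rw [e11] at e10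
  have e13 : (n : ℝ) < ((K.frobenius.even P).count 1 : ℕ) := by exact_mod_cast hn
  obtain ⟨N₁, hN₁⟩ := eventually_atTop.mp (e10.eventually (lt_mem_nhds e13))
  refine ⟨max N₀ N₁, fun r hr => ?_⟩
  have e8 : (0 : ℝ) < N r := by exact_mod_cast hpos r
  constructor
  · have e6 := hN₀ r (le_trans (le_max_left _ _) hr)
    rw [hnn, hmm, e1] at e6
    have e7 : ((n + 1 : ℕ) : ℝ) ≤ ((K.frobenius.even P).count 1 : ℕ) := by exact_mod_cast hn
    push_cast at e7
    have e9 : (n : ℝ) ≤ (M r : ℝ) / N r := by linarith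
    rw [le_div_iff₀ e8] at e9
    exact_mod_cast e9
  · have e6 := hN₁ r (le_trans (le_max_right _ _) hr)
    rw [hnn, ← e12, lt_div_iff₀ e8] at e6
    have e7 : n * N r < h (bar hG hU P) (GG (CHM.Mot.h (numQ T hG hU) X 0) r) := by
      exact_mod_cast e6
    obtain ⟨σ, hσ⟩ := hσ
    have e9 := sec_le hG hU hN R K hE P
      (CHM.Mot.h T (CHM.pow X r ⊗ CHM.pow X r) (r * T.dim X)) hloc σ hσ
    rw [← bar_gg] at e9
    rw [(CHM.Mot.secEquiv T (CHM.pow X r ⊗ CHM.pow X r) (r * T.dim X)).rank_eq]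
    exact le_trans (by exact_mod_cast e7.le) e9

/-- the ratio tends to `0` -/
theorem tendsto_of_forall {N M : ℕ → ℕ} (hN : ∀ r, 0 < N r)
    (h : ∀ n : ℕ, ∃ r₀ : ℕ, ∀ r, r₀ ≤ r → n * N r ≤ M r) :
    Tendsto (fun r => (N r : ℝ) / M r) atTop (nhds 0) := by
  have hlim : Tendsto (fun r => (M r : ℝ) / N r) atTop atTop := by
    rw [tendsto_atTop]
    intro c
    obtain ⟨n, hn⟩ := exists_nat_ge c
    obtain ⟨r₀, hr₀⟩ := h n
    refine eventually_atTop.2 ⟨r₀, fun r hr => hn.trans ?_⟩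
    have h1 : (0 : ℝ) < N r := by exact_mod_cast hN r
    rw [le_div_iff₀ h1]
    exact_mod_cast hr₀ r hr
  refine hlim.inv_tendsto_atTop.congr fun r => ?_
  rw [Pi.inv_apply, inv_div]

end DD

end

end MotP.HL
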