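import Pool.Agent.DD.Den

/-!
# Every numerically nontrivial motive is generated by a variety with a numerically nontrivial divisor
(MP_6c4da4_ag, by helper7)
-/

set_option autoImplicit false

open CategoryTheory MonoidalCategory CartesianMonoidalCategory Limits Filter

universe v u w x

namespace MotP.HL

open CHM

noncomputable section

set_option linter.unusedSectionVars false

namespace DD

variable {V : Type u} [Category.{v} V] [CartesianMonoidalCategory V]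

variable (T : CHM.ChowTheory.{v, u, w} V)

/-- the class of `h(X)` and the Tate motives -/
def cls (X : V) (M : CHM.Mot T) : Prop :=
  M = CHM.Mot.h T X 0 ∨ ∃ m : ℤ, M = CHM.Mot.h T (𝟙_ V) m

theorem gen_h {S : CHM.Mot T → Prop} (hT : ∀ m : ℤ, S (CHM.Mot.h T (𝟙_ V) m)) {Y : V}
    (hY : MotE.GenBy S (CHM.Mot.h T Y 0)) (n : ℤ) : MotE.GenBy S (CHM.Mot.h T Y n) := by
  have h3 := MotE.GenBy.tensor _ _ hY (MotE.GenBy.of _ (hT n))
  rw [CHM.Mot.h_tensor] at h3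
  have e : CHM.Mot.h T (Y ⊗ 𝟙_ V) (0 + n) ≅ CHM.Mot.h T Y n :=
    CHM.Mot.hIso (ρ_ Y).symm (by ring)
  exact MotE.GenBy.summand _ _ e.inv e.hom e.inv_hom_id h3

theorem exists_var (P : CHM.Mot T) (h0 : ¬ MotP.NumTrivial (𝟙 P)) :
    ∃ X : V, (∃ a ∈ T.gr X 1, ∃ b ∈ T.gr X (T.dim X - 1), T.deg (a * b) ≠ 0) ∧
      MotE.GenBy (cls T X) P := by
  unfold MotP.NumTrivial at h0
  push Not at h0
  obtain ⟨g, hg⟩ := h0
  rw [Category.id_comp, Ne, CHM.Mot.trace_zero_iff] at hg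
  obtain ⟨y, hy⟩ : ∃ y, y = T.pull (lift (𝟙 P.X) (𝟙 P.X)) g.1 := ⟨_, rfl⟩
  have hyd : T.deg y ≠ 0 := by
    rw [hy]
    exact hg
  have hyg : y ∈ T.gr P.X (T.dim P.X) := by
    rw [hy]
    refine T.gr_congr ?_ (T.pull_mem _ _ _ g.2.1)
    ring
  obtain ⟨E, c, hE, hc, hc1⟩ := T.line
  have hcd : T.deg c = 1 := by
    apply T.point.1
    rw [T.algebraMap_deg, map_one]
    exact hc1
  refine ⟨P.X ⊗ E, ⟨T.pull (snd P.X E) c, T.pull_mem _ _ _ hc, T.pull (fst P.X E) y, ?_, ?_⟩, ?_⟩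
  · refine T.gr_congr ?_ (T.pull_mem _ _ _ hyg)
    rw [T.dim_tensor, hE]
    ring
  · have h1 : T.push (fst P.X E) (T.pull (snd P.X E) c) = 1 := by
      have h2 := T.bc (P := P.X ⊗ E) (snd P.X E) (fst P.X E) (toUnit E) (toUnit P.X) (𝟙 P.X)
        ⟨snd _ _, by simp, by ext; simp⟩
        ⟨lift (snd _ _) (fst _ _), by ext <;> simp, by ext <;> simp⟩ (by ext) c
      rw [← h2]
      have h3 : T.push (toUnit E) c = 1 := hc1
      rw [h3, T.pull_one]
    have h4 : T.push (fst P.X E) (T.pull (snd P.X E) c * T.pull (fst P.X E) y) = y := by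
      rw [mul_comm, T.projection, h1, mul_one]
    rw [← deg_push T (fst P.X E), h4]
    exact hyd
  · have hT : ∀ m : ℤ, cls T (P.X ⊗ E) (CHM.Mot.h T (𝟙_ V) m) := fun m => Or.inr ⟨m, rfl⟩
    have h1 : Ret (𝟙_ (CHM.Mot T)) (CHM.Mot.h T E 0) := by
      have hc' : c ∈ T.gr E (T.dim E - 0) := T.gr_congr (by rw [hE]; ring) hc
      refine ⟨CHM.Mot.secEquiv T E 0 ⟨1, T.one_mem E⟩, CHM.Mot.cosecEquiv T E 0 ⟨c, hc'⟩, ?_⟩
      rw [CHM.Mot.sec_cosec]
      have h2 : T.deg ((1 : T.CH E) * c) = 1 := by rw [one_mul, hcd]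
      rw [h2, one_smul]
    have h2 : Ret (CHM.Mot.h T P.X 0) (CHM.Mot.h T (P.X ⊗ E) 0) := by
      have h3 := (Ret.refl (CHM.Mot.h T P.X 0)).tensor h1
      rw [h_tensor] at h3
      exact (Ret.ofIso (ρ_ _).symm).trans h3
    have h3 : MotE.GenBy (cls T (P.X ⊗ E)) (CHM.Mot.h T P.X 0) := by
      obtain ⟨i, p, hip⟩ := h2
      exact MotE.GenBy.summand _ _ i p hip (MotE.GenBy.of _ (Or.inl rfl))
    obtain ⟨i, p, hip⟩ := CHM.Mot.retract_h P
    exact MotE.GenBy.summand _ _ i p hip (gen_h T hT h3 P.m)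

end DD

end

end MotP.HL
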