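import Pool.Agent.DD.Defs
import Pool.Agent.DD.Big
import Pool.Agent.DD.Ex
import Pool.Agent.MotE.Fin
import Pool.Agent.HL.Chs

/-!
# The density dichotomy for Chow motives (MP_6c4da4_ag, by helper7)
-/

set_option autoImplicit false

open CategoryTheory MonoidalCategory CartesianMonoidalCategory Limits Filter

universe v u w x

namespace CHS

variable {V : Type u} [Category.{v} V] [CartesianMonoidalCategory V]

section

variable (T : ChowTheory.{v, u, w} V)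

variable {T}

theorem one_old (X : V) (M : CHM.Mot T.toOld)
    (h : clsOld (fun N : Mot T => N = Mot.h T X) M) :
    M = CHM.Mot.h T.toOld X 0 ∨ ∃ m : ℤ, M = CHM.Mot.h T.toOld (𝟙_ V) m := by
  rcases h with h | h
  · exact Or.inl (congrArg Mot.old h)
  · exact Or.inr h

theorem genBy_cls (X : V) (M : CHM.Mot T.toOld)
    (h : MotE.GenBy (MotP.HL.DD.cls T.toOld X) M) :
    GenBy (fun N : Mot T => N = Mot.h T X) (Mot.new M) := by
  induction h with
  | of M h =>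
    rcases h with rfl | ⟨m, rfl⟩
    · exact GenBy.of _ rfl
    · exact GenBy.tate m
  | unit => exact GenBy.tate 0
  | tensor M N _ _ hM hN => exact GenBy.tensor _ _ hM hN
  | dual M _ hM => exact GenBy.dual _ hM
  | sum M N L i p j q h1 h2 h3 _ _ hM hN =>
    refine GenBy.sum (Mot.new M) (Mot.new N) (Mot.new L)
      (Mot.newHom (M := Mot.new M) (N := Mot.new L) i)
      (Mot.newHom (M := Mot.new L) (N := Mot.new M) p)
      (Mot.newHom (M := Mot.new N) (N := Mot.new L) j)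
      (Mot.newHom (M := Mot.new L) (N := Mot.new N) q) ?_ ?_ ?_ hM hN
    · exact congrArg (Mot.newHom (M := Mot.new M) (N := Mot.new M)) h1
    · exact congrArg (Mot.newHom (M := Mot.new N) (N := Mot.new N)) h2
    · exact congrArg (Mot.newHom (M := Mot.new L) (N := Mot.new L)) h3
  | summand M N i p h _ hM =>
    refine GenBy.summand (Mot.new M) (Mot.new N) (Mot.newHom (M := Mot.new N) (N := Mot.new M) i)
      (Mot.newHom (M := Mot.new M) (N := Mot.new N) p) ?_ hM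
    exact congrArg (Mot.newHom (M := Mot.new N) (N := Mot.new N)) h

/-- generation is transitive -/
theorem GenBy.trans {S S' : Mot T → Prop} (hS : ∀ M, S M → GenBy S' M) {M : Mot T}
    (h : GenBy S M) : GenBy S' M := by
  induction h with
  | of M h => exact hS M h
  | tate m => exact GenBy.tate m
  | tensor M N _ _ hM hN => exact GenBy.tensor _ _ hM hN
  | dual M _ hM => exact GenBy.dual _ hM
  | sum M N L i p j q h1 h2 h3 _ _ hM hN => exact GenBy.sum M N L i p j q h1 h2 h3 hM hN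
  | summand M N i p h _ hM => exact GenBy.summand M N i p h hM

/-- numerically nontrivial divisors -/
theorem div_of_N {X : V} (h : T.N X 1 ≠ 0) : ∃ a ∈ T.toOld.gr X 1,
    ∃ b ∈ T.toOld.gr X (T.toOld.dim X - 1), T.toOld.deg (a * b) ≠ 0 := by
  by_contra hc
  push Not at hc
  apply h
  rw [T.N_eq]
  have h1 : T.toOld.num X 1 = ⊤ := by
    rw [eq_top_iff]
    intro a _ b hb
    exact hc a.1 a.2 b hb
  have h2 : Subsingleton (T.toOld.gr X 1 ⧸ T.toOld.num X 1) :=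
    Submodule.Quotient.subsingleton_iff.2 h1
  rw [rank_subsingleton']
  exact map_zero _

end

namespace Cohomology

variable {T : ChowTheory.{v, u, w} V} (K : Cohomology.{v, u, w, x} T)

include K in
theorem N_of_div {X : V} (h : ∃ a ∈ T.toOld.gr X 1,
    ∃ b ∈ T.toOld.gr X (T.toOld.dim X - 1), T.toOld.deg (a * b) ≠ 0) : T.N X 1 ≠ 0 := by
  intro h0
  obtain ⟨a, ha, b, hb, hab⟩ := h
  have h1 := (K.N_le (MotP.HL.a_NHA T.toOld) X 1).1
  rw [h0, Nat.cast_zero, T.numRank_cyc] at h1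
  have h2 := rank_zero_iff.1 h1
  have h3 : (⟨a, ha⟩ : T.toOld.gr X 1) ∈ T.toOld.num X 1 := by
    rw [← Submodule.Quotient.mk_eq_zero]
    exact Subsingleton.elim _ _
  exact hab (h3 b hb)

/-- the properties of one motive -/
theorem one_new (M : CHM.Mot T.toOld) (n : ℕ)
    (hI : ∀ e : M ⟶ M, e ≫ e = e → e = 0 ∨ e = 𝟙 M)
    (hn : n ≤ (K.toOld.frobenius.even M).count 1)
    (hz : ∀ z : ℂ, z ≠ 1 → (K.toOld.frobenius.even M).count z =
      (K.toOld.frobenius.odd M).count z)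
    (hr : ∀ N : Submodule ℚ (M ⟶ M), (∀ f : M ⟶ M, MotP.NumTrivial f → f ∈ N) →
      Module.rank ℚ ((M ⟶ M) ⧸ N) ≤ ((K.toOld.frobenius.even M).count 1 : ℕ)) :
    (∀ e : Mot.new M ⟶ Mot.new M, e ≫ e = e → e = 0 ∨ e = 𝟙 (Mot.new M)) ∧
      n ≤ K.mult (Mot.new M) ((T.q : ℂ) ^ (Mot.new M).m) ∧
      (∀ z : ℂ, z ≠ (T.q : ℂ) ^ (Mot.new M).m → K.mult (Mot.new M) z = 0) ∧
      T.numRank (Set.range (Mot.Hom.val :
        Mot.Hom (Mot.new M) (Mot.new M) → T.CH ((Mot.new M).X ⊗ (Mot.new M).X))) ≤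
        (K.mult (Mot.new M) ((T.q : ℂ) ^ (Mot.new M).m) : ℕ) := by
  have hq : (T.q : ℂ) ≠ 0 := by
    have h := T.one_lt
    exact_mod_cast (by omega : T.q ≠ 0)
  have hodd : (K.toOld.frobenius.odd M).count 1 = 0 :=
    Multiset.count_eq_zero.2 (K.toOld.frobenius.one_not_odd M)
  have hm : K.mult (Mot.new M) ((T.q : ℂ) ^ (Mot.new M).m) =
      (K.toOld.frobenius.even M).count 1 := by
    rw [K.mult_old, ← zpow_add₀ hq]
    have h2 : -(Mot.new M).m + (Mot.new M).m = 0 := by ring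
    rw [h2, zpow_zero]
    change K.toOld.multM M 1 = _
    rw [K.toOld.multM_add, hodd, add_zero]
  refine ⟨?_, ?_, ?_, ?_⟩
  · intro e he
    rcases hI (Mot.oldHom e) (congrArg Mot.oldHom he) with h1 | h1
    · exact Or.inl (congrArg (Mot.newHom (M := Mot.new M) (N := Mot.new M)) h1)
    · exact Or.inr (congrArg (Mot.newHom (M := Mot.new M) (N := Mot.new M)) h1)
  · rw [hm]
    exact hn
  · intro z hz1
    rw [K.mult_old]
    obtain ⟨y, hy⟩ : ∃ y, y = (T.q : ℂ) ^ (-(Mot.new M).m) * z := ⟨_, rfl⟩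
    rw [← hy]
    have hy1 : y ≠ 1 := by
      intro h2
      apply hz1
      rw [hy, zpow_neg] at h2
      have h3 := mul_inv_cancel₀ (zpow_ne_zero (Mot.new M).m hq)
      have h4 : (T.q : ℂ) ^ (Mot.new M).m * (((T.q : ℂ) ^ (Mot.new M).m)⁻¹ * z) =
          (T.q : ℂ) ^ (Mot.new M).m * 1 := congrArg _ h2
      rw [← mul_assoc, h3, one_mul, mul_one] at h4
      exact h4
    have h5 := hz y hy1
    change K.toOld.multM M y = 0
    rw [K.toOld.multM_add]
    by_cases h3 : y ∈ K.toOld.frobenius.even M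
    · have h4 : (K.toOld.frobenius.odd M).count y = 0 :=
        Multiset.count_eq_zero.2 (fun h4 => K.toOld.even_odd_disjoint h3 h4)
      omega
    · have h4 : (K.toOld.frobenius.even M).count y = 0 := Multiset.count_eq_zero.2 h3
      omega
  · rw [Mot.numRank_end, hm]
    apply hr
    intro f hf
    exact (CHM.Mot.mem_numHom f).2 hf

/-- the density of one motive -/
theorem density_one (M : CHM.Mot T.toOld) (n : ℕ)
    (hL : ∀ φ : M ⟶ M, MotP.NumTrivial φ ∨ IsIso φ)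
    (hσ : ∃ σ : 𝟙_ (CHM.Mot T.toOld) ⟶ M, σ ≠ 0)
    (hn : n < (K.toOld.frobenius.even M).count 1)
    (hz : ∀ z : ℂ, z ≠ 1 → (K.toOld.frobenius.even M).count z =
      (K.toOld.frobenius.odd M).count z)
    (hr : ∀ N : Submodule ℚ (M ⟶ M), (∀ f : M ⟶ M, MotP.NumTrivial f → f ∈ N) →
      Module.rank ℚ ((M ⟶ M) ⧸ N) ≤ ((K.toOld.frobenius.even M).count 1 : ℕ))
    (X : V) (hX : T.N X 1 ≠ 0) (hM : ByVar X (Mot.new M)) : K.Thin n X := by
  obtain ⟨h0, r₀, h⟩ := (MotP.HL.DD.density T.toOld T.frob K.toOld X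
    (clsOld (fun N : Mot T => N = Mot.h T X)) (one_old X) (div_of_N hX) n M (old_genBy _ hM) hL hσ
    hn hz hr (T.NN X) (K.MM X)
    (fun r => by unfold ChowTheory.NN; rw [T.N_eq, T.dim_pow, ← pow_old]; rfl)
    (fun r => by unfold MM; rw [K.M_eq, T.dim_pow, ← pow_old]; rfl))
  refine ⟨r₀, fun r hr => ⟨h0 r, (h r hr).1, ?_⟩⟩
  have h1 : T.RR X r = Module.rank ℚ (T.toOld.gr (CHM.pow X r ⊗ CHM.pow X r)
      (r * T.toOld.dim X)) := by
    unfold ChowTheory.RR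
    rw [T.rank_cyc, T.dim_pow, ← pow_old]
    rfl
  rw [h1]
  exact (h r hr).2

/-- the second alternative -/
theorem bigL_old (S : Mot T → Prop) (h : MotE.BigL K.toOld.frobenius (clsOld S)) :
    (∃ M : Mot T, S M ∧ ¬ K.TateFormula M) ∧ ∀ n : ℕ, ∃ M : Mot T, GenBy S M ∧
      (∀ e : M ⟶ M, e ≫ e = e → e = 0 ∨ e = 𝟙 M) ∧ n ≤ K.mult M ((T.q : ℂ) ^ M.m) ∧
      (∀ z : ℂ, z ≠ (T.q : ℂ) ^ M.m → K.mult M z = 0) ∧
      T.numRank (Set.range (Mot.Hom.val : Mot.Hom M M → T.CH (M.X ⊗ M.X))) ≤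
        (K.mult M ((T.q : ℂ) ^ M.m) : ℕ) ∧
      (∃ X : V, T.N X 1 ≠ 0 ∧ ByVar X M) ∧ ∀ X : V, T.N X 1 ≠ 0 → ByVar X M → K.Thin n X := by
  refine ⟨(K.big_old S h.big).1, fun n => ?_⟩
  obtain ⟨M, hM, hL, hσ, hI, hn, hz, hr⟩ := h.2 (n + 1)
  obtain ⟨h1, h2, h3, h4⟩ := K.one_new M (n + 1) hI hn hz hr
  refine ⟨Mot.new M, genBy_old S hM, h1, by omega, h3, h4, ?_, ?_⟩
  · have h0 : ¬ MotP.NumTrivial (𝟙 M) := by
      intro h0
      have h5 := MotP.HL.bar_ne (MotP.HL.t_NGR T.toOld) (MotP.HL.t_NUN T.toOld)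
        (MotP.HL.t_NND T.toOld) T.frob K.toOld (MotP.HL.a_NEV T.toOld) M (by omega)
      apply h5
      rw [← MotP.HL.barL_id]
      exact (MotP.HL.barL_eq_zero _ _ (𝟙 M)).2 h0
    obtain ⟨X, hX, hg⟩ := MotP.HL.DD.exists_var T.toOld M h0
    exact ⟨X, K.N_of_div hX, genBy_cls X M hg⟩
  · intro X hX hM2
    exact K.density_one M n hL hσ (by omega) hz hr X hX hM2

/-- THE DENSITY DICHOTOMY. -/
theorem density (S : Mot T → Prop) :
    ((IsAbelian (Mot T) → IsAbelian (CatBy S)) ∧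
      (IsAbelian (CatBy S) ↔ ∀ (M N : Mot T) (f : M ⟶ N), GenBy S M → GenBy S N →
        T.NumTrivial (Mot.Hom.val f) → f = 0) ∧
      (IsAbelian (CatBy S) →
        ∀ X : V, GenBy S (Mot.h T X) → ∀ a : T.CH X, T.NumTrivial a → a = 0)) ∨
    ((∃ M : Mot T, S M ∧ ¬ K.TateFormula M) ∧
      (∀ n : ℕ, ∃ M : Mot T, GenBy S M ∧
        (∀ e : M ⟶ M, e ≫ e = e → e = 0 ∨ e = 𝟙 M) ∧ n ≤ K.mult M ((T.q : ℂ) ^ M.m) ∧
        (∀ z : ℂ, z ≠ (T.q : ℂ) ^ M.m → K.mult M z = 0) ∧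
        T.numRank (Set.range (Mot.Hom.val : Mot.Hom M M → T.CH (M.X ⊗ M.X))) ≤
          (K.mult M ((T.q : ℂ) ^ M.m) : ℕ) ∧
        (∃ X : V, T.N X 1 ≠ 0 ∧ ByVar X M) ∧ ∀ X : V, T.N X 1 ≠ 0 → ByVar X M → K.Thin n X) ∧
      ∀ X : V, T.N X 1 ≠ 0 → (∀ M : Mot T, S M → ByVar X M) → ∀ n : ℕ, K.Thin n X) := by
  obtain ⟨h1, h2⟩ := K.byClass S
  rw [or_iff_not_imp_right]
  intro hB
  have h3 : IsAbelian (Mot T) ∨ IsAbelian (CatBy S) → ∀ (M N : Mot T) (f : M ⟶ N), GenBy S M →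
      GenBy S N → T.NumTrivial (Mot.Hom.val f) → f = 0 := by
    intro hA
    have h4 := MotE.mainL K.toOld.frobenius (clsOld S)
      (hA.imp isAbelian_mot.1 (isAbelian_catBy S).1)
    rcases h4 with h4 | h4
    · exact (zero_iff S).2 h4
    · exfalso
      apply hB
      obtain ⟨g1, g2⟩ := K.bigL_old S h4
      refine ⟨g1, g2, fun X hX hS n => ?_⟩
      obtain ⟨M, k1, -, -, -, -, -, k7⟩ := g2 n
      exact k7 X hX (k1.trans hS)
  exact ⟨fun h => (h2 (h3 (Or.inl h))).1, ⟨fun h => h3 (Or.inr h), fun h => (h2 h).1⟩,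
    fun h => (h2 (h3 (Or.inr h))).2⟩

end Cohomology

end CHS
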