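import Pool.Agent.DD.Bar
import Pool.Agent.HL.All
import Pool.Agent.HL.P_ONE
import Pool.Agent.HL.P_SIM

/-!
# The eigenvalues of Frobenius on numerical motives of Chow motives (MP_6c4da4_ag, by helper7)
-/

set_option autoImplicit false

open CategoryTheory MonoidalCategory CartesianMonoidalCategory Limits

universe v u w x

namespace MotP.HL

open CHM

noncomputable section

set_option linter.unusedSectionVars false

variable {V : Type u} [Category.{v} V] [CartesianMonoidalCategory V]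

section

variable {T : CHM.ChowTheory.{v, u, w} V} (hG : S_NGR T) (hU : S_NUN T) (hN : S_NND T)
  (R : CHM.FrobeniusMaps T) (K : CHM.Cohomology.{v, u, w, x} T R) (hE : S_NEV.{v, u, w, x} T)

theorem bar_t (M : CHM.Mot T) (k : ℕ) :
    ((frobQ hG hU hN R K hE).t (bar hG hU M) k : ℂ) =
      ((K.frobenius.even M).map fun z => z ^ k).sum -
        ((K.frobenius.odd M).map fun z => z ^ k).sum := by
  have h1 := (frobQ hG hU hN R K hE).val_spec
    (MotP.tr (bar hG hU M) ((frobQ hG hU hN R K hE).Fp (bar hG hU M) k))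
  have h2 := t_NTC T hG hU R (bar hG hU M) M.p M.deg rfl k 0 _ h1
  have h0 : T.cpow M.p (0 + 1) = M.p := NTC.cpow_idem M.p M.idem 0
  have h3 : ((frobQ hG hU hN R K hE).t (bar hG hU M) k) =
      ((R.q : ℚ) ^ (-M.m)) ^ k * T.trc (T.cp M.p (T.cpow (T.gr' (R.Fr M.X)) k)) := by
    refine Eq.trans h2 ?_
    have h4 : T.cp (T.cpow M.p (0 + 1)) (T.cpow (T.gr' (R.Fr M.X)) k) =
        T.cp M.p (T.cpow (T.gr' (R.Fr M.X)) k) := by rw [h0]
    exact congrArg (fun a => ((R.q : ℚ) ^ (-M.m)) ^ k * T.trc a) h4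
  rw [h3]
  refine K.frobenius.trace_formula M k _ ?_
  rw [CHM.Mot.trace_eq]
  congr 1
  have h4 : (_root_.Mot.component K.frobenius.F M ^ k : End M).1 =
      ((R.q : ℚ) ^ (-M.m)) ^ k • T.cp M.p (T.cpow (T.gr' (R.Fr M.X)) k) := by
    rw [MotP.end_pow]
    exact NTC.pw_val R M k
  rw [h4, map_smul, map_smul, smul_eq_mul]
  rfl

theorem bar_ν (M : CHM.Mot T) (z : ℂ) :
    ν (frobQ hG hU hN R K hE) (bar hG hU M) z =
      ((K.frobenius.even M).count z : ℤ) - ((K.frobenius.odd M).count z : ℤ) := by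
  refine NMU.nu_eq ((frobQ hG hU hN R K hE).α (bar hG hU M))
    ((frobQ hG hU hN R K hE).β (bar hG hU M)) _ _ (fun n => ?_) z
  rw [← bar_t hG hU hN R K hE M n]
  exact ((fr (frobQ hG hU hN R K hE)).t_formula (bar hG hU M) n).symm

theorem bar_m (M : CHM.Mot T) :
    m (frobQ hG hU hN R K hE) (bar hG hU M) = (K.frobenius.even M).count 1 := by
  obtain ⟨W, hW⟩ : ∃ W, W = frobQ hG hU hN R K hE := ⟨_, rfl⟩
  have h1 := bar_ν hG hU hN R K hE M 1
  rw [← hW] at h1 ⊢
  have h2 : (W.β (bar hG hU M)).count 1 = 0 := Multiset.count_eq_zero.2 (W.odd _)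
  have h3 : (K.frobenius.odd M).count 1 = 0 :=
    Multiset.count_eq_zero.2 (K.frobenius.one_not_odd _)
  have h5 : ν W (bar hG hU M) 1 =
    ((W.α (bar hG hU M)).count 1 : ℤ) - ((W.β (bar hG hU M)).count 1 : ℤ) := rfl
  rw [h5, h2, h3] at h1
  have h4 : m W (bar hG hU M) = (W.α (bar hG hU M)).count 1 := rfl
  rw [h4]
  omega

theorem bar_one (M : CHM.Mot T)
    (hz : ∀ z : ℂ, z ≠ 1 → (K.frobenius.even M).count z = (K.frobenius.odd M).count z) :
    One (frobQ hG hU hN R K hE) (bar hG hU M) := by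
  intro z hz1
  rw [bar_ν, hz z hz1, sub_self]

/-- the rank of the endomorphisms -/
theorem bar_h_le (M : CHM.Mot T) (μ : ℕ)
    (hr : ∀ N : Submodule ℚ (M ⟶ M), (∀ f : M ⟶ M, MotP.NumTrivial f → f ∈ N) →
      Module.rank ℚ ((M ⟶ M) ⧸ N) ≤ (μ : ℕ)) : h (bar hG hU M) (bar hG hU M) ≤ μ := by
  have h1 : Module.rank ℚ (bar hG hU M ⟶ bar hG hU M) ≤ (μ : ℕ) := by
    have h2 := hr (LinearMap.ker (barL hG hU M M)) (fun f hf => by
      rw [LinearMap.mem_ker]
      exact (barL_eq_zero hG hU f).2 hf)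
    have h3 := ((barL hG hU M M).quotKerEquivOfSurjective (barL_surj hG hU M M)).lift_rank_eq
    rw [Cardinal.lift_id, Cardinal.lift_id] at h3
    rw [← h3]
    exact h2
  exact Module.finrank_le_of_rank_le h1

/-- `bar M` is simple -/
theorem bar_smp (M : CHM.Mot T) (hL : ∀ φ : M ⟶ M, MotP.NumTrivial φ ∨ IsIso φ)
    (h0 : 𝟙 (bar hG hU M) ≠ 0) : Smp (bar hG hU M) := by
  refine ⟨h0, fun f hf => ?_⟩
  obtain ⟨φ, rfl⟩ := barL_surj hG hU M M f
  rcases hL φ with h1 | h1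
  · exact absurd ((barL_eq_zero hG hU φ).2 h1) hf
  · obtain ⟨ψ, h2, h3⟩ := h1.out
    refine ⟨barL hG hU M M ψ, ?_, ?_⟩
    · rw [← barL_comp, h2, barL_id]
    · rw [← barL_comp, h3, barL_id]

include hN hE in
theorem bar_ne (M : CHM.Mot T) (h1 : 0 < (K.frobenius.even M).count 1) :
    𝟙 (bar hG hU M) ≠ 0 := by
  intro h0
  obtain ⟨W, hW⟩ : ∃ W, W = frobQ hG hU hN R K hE := ⟨_, rfl⟩
  have h2 := bar_m hG hU hN R K hE M
  rw [← hW] at h2
  have h3 : W.mult (bar hG hU M) = 0 := by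
    apply W.mult_of_zero
    intro k
    have h4 : W.Fp (bar hG hU M) k = 0 := by
      rw [← Category.id_comp (W.Fp (bar hG hU M) k), h0, Limits.zero_comp]
    unfold Frob.t
    rw [h4, tr_zero, W.val_zero]
  have h5 : m W (bar hG hU M) = 0 := h3
  omega

end

end

end MotP.HL
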