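import Pool.Agent.HL.P_GGX
import Pool.Agent.HL.P_NCL
import Pool.Agent.HL.P_CSI

/-!
# Retracts in a rigid tensor category (MP_6c4da4_ag, by helper7)
-/

set_option autoImplicit false

open CategoryTheory MonoidalCategory BraidedCategory Limits

universe v u

namespace MotP.HL

open Mot MotP.GGap

noncomputable section

set_option linter.unusedSectionVars false

variable {C : Type u} [Category.{v} C] [Preadditive C] [Linear ℚ C] [MonoidalCategory C]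
  [SymmetricCategory C] [MonoidalPreadditive C] [MonoidalLinear ℚ C] [RightRigidCategory C]

/-- `R` is a retract of `Y` -/
def Ret (R Y : C) : Prop := ∃ (i : R ⟶ Y) (p : Y ⟶ R), i ≫ p = 𝟙 R

theorem Ret.refl (Y : C) : Ret Y Y := ⟨𝟙 Y, 𝟙 Y, Category.comp_id _⟩

theorem Ret.trans {R Y Z : C} (h1 : Ret R Y) (h2 : Ret Y Z) : Ret R Z := by
  obtain ⟨i, p, h1⟩ := h1
  obtain ⟨j, q, h2⟩ := h2
  exact ⟨i ≫ j, q ≫ p, by rw [Category.assoc, ← Category.assoc j, h2, Category.id_comp, h1]⟩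

theorem Ret.ofIso {R Y : C} (e : R ≅ Y) : Ret R Y := ⟨e.hom, e.inv, e.hom_inv_id⟩

theorem Ret.tensor {R Y R' Y' : C} (h1 : Ret R Y) (h2 : Ret R' Y') : Ret (R ⊗ R') (Y ⊗ Y') := by
  obtain ⟨i, p, h1⟩ := h1
  obtain ⟨j, q, h2⟩ := h2
  exact ⟨i ⊗ₘ j, p ⊗ₘ q, by
    rw [MonoidalCategory.tensorHom_comp_tensorHom, h1, h2, MonoidalCategory.id_tensorHom_id]⟩

theorem Ret.dual {R Y : C} (h1 : Ret R Y) : Ret Rᘁ Yᘁ := by
  obtain ⟨i, p, h1⟩ := h1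
  exact ⟨pᘁ, iᘁ, by rw [← comp_rightAdjointMate, h1, rightAdjointMate_id]⟩

theorem Ret.dec {X Y Z : C} (d : Dec X Y Z) : Ret Y X := ⟨d.i, d.p, d.ip⟩

theorem Ret.smd [IsIdempotentComplete C] {R Y : C} (h : Ret R Y) : Smd R Y := by
  obtain ⟨i, p, h⟩ := h
  exact CSI.dec_of_retract i p h

theorem Smd.ret {R Y : C} (h : Smd R Y) : Ret R Y := by
  obtain ⟨R', ⟨d⟩⟩ := h
  exact Ret.dec d

/-- a retract of a direct sum -/
theorem Ret.sum {X Y Z A B D : C} (i : X ⟶ Z) (p : Z ⟶ X) (j : Y ⟶ Z) (q : Z ⟶ Y)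
    (hs : p ≫ i + q ≫ j = 𝟙 Z) (hX : Ret X A) (hY : Ret Y B) (d : Dec D A B) : Ret Z D := by
  obtain ⟨a, a', ha⟩ := hX
  obtain ⟨b, b', hb⟩ := hY
  refine ⟨p ≫ a ≫ d.i + q ≫ b ≫ d.j, d.p ≫ a' ≫ i + d.q ≫ b' ≫ j, ?_⟩
  have e1 : (p ≫ a ≫ d.i) ≫ (d.p ≫ a' ≫ i) = p ≫ i := by
    calc (p ≫ a ≫ d.i) ≫ (d.p ≫ a' ≫ i) = p ≫ a ≫ (d.i ≫ d.p) ≫ a' ≫ i := by
          simp only [Category.assoc]
      _ = p ≫ (a ≫ a') ≫ i := by
          rw [d.ip, Category.id_comp]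
          simp only [Category.assoc]
      _ = p ≫ i := by rw [ha, Category.id_comp]
  have e2 : (q ≫ b ≫ d.j) ≫ (d.q ≫ b' ≫ j) = q ≫ j := by
    calc (q ≫ b ≫ d.j) ≫ (d.q ≫ b' ≫ j) = q ≫ b ≫ (d.j ≫ d.q) ≫ b' ≫ j := by
          simp only [Category.assoc]
      _ = q ≫ (b ≫ b') ≫ j := by
          rw [d.jq, Category.id_comp]
          simp only [Category.assoc]
      _ = q ≫ j := by rw [hb, Category.id_comp]
  have e3 : (p ≫ a ≫ d.i) ≫ (d.q ≫ b' ≫ j) = 0 := by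
    calc (p ≫ a ≫ d.i) ≫ (d.q ≫ b' ≫ j) = p ≫ a ≫ (d.i ≫ d.q) ≫ b' ≫ j := by
          simp only [Category.assoc]
      _ = 0 := by
          rw [d.iq, Limits.zero_comp, Limits.comp_zero, Limits.comp_zero]
  have e4 : (q ≫ b ≫ d.j) ≫ (d.p ≫ a' ≫ i) = 0 := by
    calc (q ≫ b ≫ d.j) ≫ (d.p ≫ a' ≫ i) = q ≫ b ≫ (d.j ≫ d.p) ≫ a' ≫ i := by
          simp only [Category.assoc]
      _ = 0 := by
          rw [d.jp, Limits.zero_comp, Limits.comp_zero, Limits.comp_zero]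
  rw [Preadditive.add_comp, Preadditive.comp_add, Preadditive.comp_add, e1, e2, e3, e4, add_zero,
    zero_add, hs]

/-- powers of retracts -/
theorem Ret.pow {R Y : C} (h : Ret R Y) (k : ℕ) : Ret (T R k) (T Y k) := by
  induction k with
  | zero => exact Ret.refl _
  | succ k ih => exact ih.tensor h

theorem Ret.unit_pow {A : C} (h : Ret (𝟙_ C) A) (k : ℕ) : Ret (𝟙_ C) (T A k) := by
  induction k with
  | zero => exact Ret.refl _
  | succ k ih => exact (Ret.ofIso (ρ_ (𝟙_ C)).symm).trans (ih.tensor h)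

theorem Ret.pow_le_right {A : C} (h : Ret (𝟙_ C) A) (a k : ℕ) : Ret (T A a) (T A (a + k)) :=
  ((Ret.ofIso (ρ_ (T A a)).symm).trans ((Ret.refl _).tensor (h.unit_pow k))).trans
    (Ret.ofIso (GGX.addIso A a k))

theorem Ret.pow_le_left {A : C} (h : Ret (𝟙_ C) A) (a k : ℕ) : Ret (T A k) (T A (a + k)) :=
  ((Ret.ofIso (λ_ (T A k)).symm).trans ((h.unit_pow a).tensor (Ret.refl _))).trans
    (Ret.ofIso (GGX.addIso A a k))

theorem Ret.unit_dual : Ret (𝟙_ C) (HLF.I C) := Ret.ofIso HLF.unitDual.symm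

/-- a positive power times a negative one -/
theorem Ret.gg_neg {A L : C} (h : Ret (𝟙_ C) A) (a k : ℕ) (hL : Ret L (T A k)) :
    Ret (T A a ⊗ L) (GG A (a + k)) := by
  have h1 : Ret (T A a ⊗ L) (T A (a + k)) :=
    ((Ret.refl _).tensor hL).trans (Ret.ofIso (GGX.addIso A a k))
  have h2 : Ret (𝟙_ C) (T A (a + k))ᘁ :=
    Ret.unit_dual.trans (Ret.dual (R := 𝟙_ C) (h.unit_pow (a + k)))
  exact (Ret.ofIso (ρ_ (T A a ⊗ L)).symm).trans (h1.tensor h2)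

theorem Ret.gg_pos {A L : C} (h : Ret (𝟙_ C) A) (a k : ℕ) (hL : Ret L (T A k)ᘁ) :
    Ret (T A a ⊗ L) (GG A (a + k)) :=
  (h.pow_le_right a k).tensor (hL.trans (h.pow_le_left a k).dual)

end

end MotP.HL
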