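import Pool.Agent.DD.Ret
import Pool.Agent.DD.Mul
import Pool.Agent.CHM.Good

/-!
# Twists (MP_6c4da4_ag, by helper7)

If the Lefschetz motive is a direct summand of `h(X)`, then all `h(X^a)(i)` are direct summands of
the objects `GG (h X) k`.
-/

set_option autoImplicit false

open CategoryTheory MonoidalCategory CartesianMonoidalCategory Limits

universe v u w x

namespace MotP.HL

open CHM

noncomputable section

set_option linter.unusedSectionVars false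

variable {V : Type u} [Category.{v} V] [CartesianMonoidalCategory V]

section

variable (T : CHM.ChowTheory.{v, u, w} V)

theorem tw_neg {X : V} (hL : Ret (CHM.Mot.h T (𝟙_ V) (-1)) (CHM.Mot.h T X 0)) (k : ℕ) :
    Ret (CHM.Mot.h T (𝟙_ V) (-k)) (_root_.Mot.T (CHM.Mot.h T X 0) k) := by
  induction k with
  | zero =>
    have h1 : CHM.Mot.h T (𝟙_ V) (-((0 : ℕ) : ℤ)) = 𝟙_ (CHM.Mot T) := by
      rw [h_unit]
      congr 1
    rw [h1]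
    exact Ret.refl _
  | succ k ih =>
    have h1 := ih.tensor hL
    rw [h_tensor] at h1
    refine Ret.trans (Ret.ofIso ?_) h1
    exact (CHM.Mot.hIso (λ_ (𝟙_ V)).symm (by push_cast; ring)).symm

theorem tw_pos {X : V} (hL : Ret (CHM.Mot.h T (𝟙_ V) (-1)) (CHM.Mot.h T X 0)) (k : ℕ) :
    Ret (CHM.Mot.h T (𝟙_ V) k) (_root_.Mot.T (CHM.Mot.h T X 0) k)ᘁ := by
  have h1 := (tw_neg T hL k).dual
  rw [h_dual] at h1
  have h2 : CHM.Mot.h T (𝟙_ V) k = CHM.Mot.h T (𝟙_ V) (T.dim (𝟙_ V) - -(k : ℤ)) := by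
    congr 1
    rw [T.dim_unit]
    ring
  rw [h2]
  exact h1

/-- the objects `h(X^a)(i)` -/
theorem tw_ret {X : V} (h1 : Ret (𝟙_ (CHM.Mot T)) (CHM.Mot.h T X 0))
    (hL : Ret (CHM.Mot.h T (𝟙_ V) (-1)) (CHM.Mot.h T X 0)) (a : ℕ) (Y : V)
    (e : Y ≅ CHM.pow X a) (i : ℤ) : ∃ k, Ret (CHM.Mot.h T Y i) (GG (CHM.Mot.h T X 0) k) := by
  have h2 : Ret (CHM.Mot.h T Y i)
      (_root_.Mot.T (CHM.Mot.h T X 0) a ⊗ CHM.Mot.h T (𝟙_ V) i) := by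
    rw [CHM.Mot.T_h, h_tensor]
    refine Ret.ofIso ?_
    exact CHM.Mot.hIso (ρ_ (CHM.pow X a) ≪≫ e.symm) (by ring)
  rcases le_total 0 i with hi | hi
  · obtain ⟨k, rfl⟩ := Int.eq_ofNat_of_zero_le hi
    exact ⟨a + k, h2.trans (h1.gg_pos a k (tw_pos T hL k))⟩
  · obtain ⟨k, hk⟩ := Int.eq_ofNat_of_zero_le (show 0 ≤ -i by omega)
    have hi2 : i = -(k : ℤ) := by omega
    subst hi2
    exact ⟨a + k, h2.trans (h1.gg_neg a k (tw_neg T hL k))⟩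

/-- the varieties isomorphic to powers of `X` -/
def Pw (X Y : V) : Prop := ∃ a : ℕ, Nonempty (Y ≅ CHM.pow X a)

/-- powers -/
def powAdd (X : V) (a : ℕ) : ∀ b : ℕ, CHM.pow X a ⊗ CHM.pow X b ≅ CHM.pow X (a + b)
  | 0 => ρ_ (CHM.pow X a)
  | b + 1 => (α_ (CHM.pow X a) (CHM.pow X b) X).symm ≪≫ whiskerRightIso (powAdd X a b) X

theorem pw_unit (X : V) : Pw X (𝟙_ V) := ⟨0, ⟨Iso.refl _⟩⟩

theorem pw_self (X : V) : Pw X X := ⟨1, ⟨(λ_ X).symm⟩⟩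

theorem pw_tensor (X Y Z : V) (hY : Pw X Y) (hZ : Pw X Z) : Pw X (Y ⊗ Z) := by
  obtain ⟨a, ⟨e⟩⟩ := hY
  obtain ⟨b, ⟨f⟩⟩ := hZ
  exact ⟨a + b, ⟨(e ⊗ᵢ f) ≪≫ powAdd X a b⟩⟩

/-- simple objects in the objects generated by `X` -/
theorem simple_gg {X : V} (h1 : Ret (𝟙_ (CHM.Mot T)) (CHM.Mot.h T X 0))
    (hL : Ret (CHM.Mot.h T (𝟙_ V) (-1)) (CHM.Mot.h T X 0)) (W : Frob (CHM.Mot T))
    {S Z : CHM.Mot T} (hZ : Gen T (Pw X) Z) (hS : Smp S) (hSZ : Ret S Z) :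
    ∃ k, Smd S (GG (CHM.Mot.h T X 0) k) := by
  obtain ⟨s1, -, s3, -, s5, -, s7⟩ := t_SIM (CHM.Mot T) (t_ADD _) W
  have h0 : h S Z ≠ 0 := by
    have h2 := s5 S Z S hSZ.smd
    have h3 : 0 < h S S := CSI.h_pos_of_ne W (𝟙 S) hS.1
    omega
  clear hSZ
  induction hZ with
  | h Y i hY =>
    obtain ⟨a, ⟨e⟩⟩ := hY
    obtain ⟨k, hk⟩ := tw_ret T h1 hL a Y e i
    exact ⟨k, s3 _ _ _ (s7 S _ hS h0) hk.smd⟩
  | @sum A B D d _ _ ih1 ih2 =>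
    have h2 := (t_ADD _ W _ _ _ d).2.2.1 S
    by_cases h3 : h S A = 0
    · exact ih2 (by omega)
    · exact ih1 h3

/-- the numerical motives of the Chow motives generated by `X` -/
theorem gen_bar {T : CHM.ChowTheory.{v, u, w} V} (hG : S_NGR T) (hU : S_NUN T) (X : V)
    (S : CHM.Mot T → Prop)
    (hS : ∀ M, S M → M = CHM.Mot.h T X 0 ∨ ∃ m : ℤ, M = CHM.Mot.h T (𝟙_ V) m) (M : CHM.Mot T)
    (hM : MotE.GenBy S M) : ∃ Z, Gen (numQ T hG hU) (Pw X) Z ∧ Ret (bar hG hU M) Z := by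
  obtain ⟨c1, c2, c3, c4⟩ := t_NCL (numQ T hG hU) (Pw X) (pw_unit X) (pw_tensor X)
  induction hM with
  | of M h =>
    rcases hS M h with rfl | ⟨m, rfl⟩
    · rw [bar_h]
      exact ⟨_, Gen.h X 0 (pw_self X), Ret.refl _⟩
    · rw [bar_h]
      exact ⟨_, Gen.h (𝟙_ V) m (pw_unit X), Ret.refl _⟩
  | unit =>
    rw [bar_unit]
    exact ⟨_, c1, Ret.refl _⟩
  | tensor M N _ _ hM hN =>
    obtain ⟨Z, hZ, hZ2⟩ := hM
    obtain ⟨Z', hZ', hZ2'⟩ := hN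
    rw [bar_tensor]
    exact ⟨Z ⊗ Z', c2 _ _ hZ hZ', hZ2.tensor hZ2'⟩
  | dual M _ hM =>
    obtain ⟨Z, hZ, hZ2⟩ := hM
    rw [bar_dual]
    exact ⟨Zᘁ, c3 _ hZ, hZ2.dual⟩
  | sum M N L i p j q h1 h2 h3 _ _ hM hN =>
    obtain ⟨Z, hZ, hZ2⟩ := hM
    obtain ⟨Z', hZ', hZ2'⟩ := hN
    obtain ⟨D, hD, ⟨d⟩⟩ := c4 _ _ hZ hZ'
    refine ⟨D, hD, Ret.sum (barL hG hU _ _ i) (barL hG hU _ _ p) (barL hG hU _ _ j)
      (barL hG hU _ _ q) ?_ hZ2 hZ2' d⟩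
    rw [← barL_comp, ← barL_comp, ← map_add, h3, barL_id]
  | summand M N i p h _ hM =>
    obtain ⟨Z, hZ, hZ2⟩ := hM
    refine ⟨Z, hZ, Ret.trans ⟨barL hG hU _ _ i, barL hG hU _ _ p, ?_⟩ hZ2⟩
    rw [← barL_comp, h, barL_id]

/-- the unit and the Lefschetz motive are direct summands of `h(X)`, if there is a numerically
nontrivial divisor on `X` -/
theorem ret_of_div {X : V} (a : T.CH X) (ha : a ∈ T.gr X 1) (b : T.CH X)
    (hb : b ∈ T.gr X (T.dim X - 1)) (hab : T.deg (a * b) ≠ 0) :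
    Ret (𝟙_ (CHM.Mot T)) (CHM.Mot.h T X 0) ∧
      Ret (CHM.Mot.h T (𝟙_ V) (-1)) (CHM.Mot.h T X 0) := by
  have key : ∀ (i : ℤ) (a b : T.CH X), a ∈ T.gr X i → b ∈ T.gr X (T.dim X - i) →
      T.deg (a * b) ≠ 0 → Ret (𝟙_ (CHM.Mot T)) (CHM.Mot.h T X i) := by
    intro i a b ha hb hab
    refine ⟨CHM.Mot.secEquiv T X i ⟨a, ha⟩, (T.deg (a * b))⁻¹ •
      CHM.Mot.cosecEquiv T X i ⟨b, hb⟩, ?_⟩
    rw [Linear.comp_smul, CHM.Mot.sec_cosec, smul_smul, inv_mul_cancel₀ hab, one_smul]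
  refine ⟨key 0 1 (a * b) (T.one_mem X) ?_ (by rwa [one_mul]), ?_⟩
  · refine T.gr_congr ?_ (T.mul_mem ha hb)
    ring
  · have h1 := (key 1 a b ha hb hab).tensor (Ret.refl (CHM.Mot.h T (𝟙_ V) (-1)))
    rw [h_tensor] at h1
    refine Ret.trans (Ret.ofIso (λ_ _).symm) (h1.trans (Ret.ofIso ?_))
    exact CHM.Mot.hIso (ρ_ X).symm (by ring)

end

end

end MotP.HL
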